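import Pool.Agent.helper74.GN.Defs

/-!
GNU project, module GN6b: additive maps of a finite field intertwining two multiplications.
-/

set_option autoImplicit false

namespace Pool.Agent.helper74.GN

open Polynomial in
/-- GN6b: additive maps intertwining two multiplications. -/
theorem sing_inj {p d : ℕ} [Fact p.Prime] (hd : 0 < d) (ζ ξ : GaloisField p d)
    (f : GaloisField p d ≃+ GaloisField p d) (hf : ∀ x, f (ζ * x) = ξ * f x) :
    ∃ j : ℕ, ξ = ζ ^ p ^ j := by
  have hfC : ∀ (c : ZMod p) (x : GaloisField p d), f (c • x) = c • f x := fun c x =>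
    ZMod.map_smul f c x
  have hP : ∀ (P : (ZMod p)[X]) (x : GaloisField p d),
      f (aeval ζ P * x) = aeval ξ P * f x := by
    intro P
    induction P using Polynomial.induction_on' with
    | add P Q hP hQ => intro x; simp [add_mul, hP x, hQ x]
    | monomial n c =>
      intro x
      have h1 : ∀ (n : ℕ) (x : GaloisField p d), f (ζ ^ n * x) = ξ ^ n * f x := by
        intro n
        induction n with
        | zero => intro x; simp
        | succ n ih => intro x; rw [pow_succ', mul_assoc, hf, ih, pow_succ', mul_assoc]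
      rw [aeval_monomial, aeval_monomial, ← Algebra.smul_def, ← Algebra.smul_def, smul_mul_assoc,
        hfC, h1, smul_mul_assoc]
  have hint : IsIntegral (ZMod p) ζ := Algebra.IsIntegral.isIntegral ζ
  have hroot : aeval ξ (minpoly (ZMod p) ζ) = 0 := by
    have h := hP (minpoly (ZMod p) ζ) 1
    rw [minpoly.aeval, zero_mul, map_zero] at h
    have h1 : f 1 ≠ 0 := by
      intro h0
      have : f 1 = f 0 := by rw [h0, map_zero]
      exact one_ne_zero (f.injective this)
    exact (mul_eq_zero.mp h.symm).resolve_right h1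
  have hconj : IsConjRoot (ZMod p) ζ ξ := isConjRoot_of_aeval_eq_zero hint hroot
  obtain ⟨σ, hσ⟩ := hconj.symm.exists_algEquiv
  obtain ⟨⟨i, hi⟩, rfl⟩ :=
    (FiniteField.bijective_frobeniusAlgEquivOfAlgebraic_pow (ZMod p) (GaloisField p d)).2 σ
  refine ⟨i, ?_⟩
  simp only [AlgEquiv.coe_pow, FiniteField.coe_frobeniusAlgEquivOfAlgebraic_iterate] at hσ
  rw [← hσ, ZMod.card]

end Pool.Agent.helper74.GN
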