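import Pool.Agent.helper12.GN.GN0

/-!
GNU project, module GN6a: a group of order `p ^ d` with an automorphism of prime order `r`,
`d` = order of `p` modulo `r`, is the additive group of the field with `p ^ d` elements.
-/

set_option autoImplicit false

namespace Pool.Agent.helper74.GN

/-- cancelling powers of `p` modulo `r` -/
theorem h57_pow_sub {p r : ℕ} (hp : p.Prime) (hr : r.Prime) (hrp : r ≠ p) {n i : ℕ} (hi : i ≤ n)
    (h : (p : ZMod r) ^ n = (p : ZMod r) ^ i) : (p : ZMod r) ^ (n - i) = 1 := by
  have : Fact r.Prime := ⟨hr⟩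
  have hp0 : (p : ZMod r) ≠ 0 := by
    intro h0
    rw [ZMod.natCast_eq_zero_iff] at h0
    exact hrp ((Nat.prime_dvd_prime_iff_eq hr hp).mp h0)
  have h1 : (p : ZMod r) ^ i * (p : ZMod r) ^ (n - i) = (p : ZMod r) ^ i * 1 := by
    rw [← pow_add, Nat.add_sub_cancel' hi, h, mul_one]
  exact mul_left_cancel₀ (pow_ne_zero _ hp0) h1

theorem h57_fix_trivial {p r d : ℕ} (hp : p.Prime) (hr : r.Prime) (hrp : r ≠ p)
    (hj : ∀ j : ℕ, 0 < j → j < d → (p : ZMod r) ^ j ≠ 1) (H : Type) [Group H]
    (hH : Nat.card H = p ^ d) (g : MulAut H) (hg : g ^ r = 1) (hg1 : g ≠ 1) :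
    ∀ x : H, g x = x → x = 1 := by
  have : Finite H := Nat.finite_of_card_ne_zero (by rw [hH]; exact (pow_pos hp.pos _).ne')
  obtain ⟨i, hi, hc, he⟩ := aut_fix hp hr H hH g hg
  have h1 := h57_pow_sub hp hr hrp hi he
  rcases Nat.eq_zero_or_pos i with h0 | h0
  · intro x hx
    rw [h0, pow_zero] at hc
    have hs : Subsingleton {x : H // g x = x} := (Nat.card_eq_one_iff_unique.mp hc).1
    have := hs.elim ⟨x, hx⟩ ⟨1, map_one g⟩
    exact congrArg Subtype.val this
  · rcases Nat.lt_or_ge i d with hid | hid
    · exact absurd h1 (hj (d - i) (by omega) (by omega))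
    · exfalso
      apply hg1
      have hid' : i = d := le_antisymm hi hid
      have hall : ∀ x : H, g x = x := by
        have hcard : Nat.card {x : H // g x = x} = Nat.card H := by rw [hc, hH, hid']
        have hbij := (Nat.bijective_iff_injective_and_card
          (Subtype.val : {x : H // g x = x} → H)).mpr ⟨Subtype.val_injective, hcard⟩
        intro x
        obtain ⟨y, rfl⟩ := hbij.2 x
        exact y.2
      exact MulEquiv.ext hall

/-- The restriction of an automorphism to an invariant finite subgroup. -/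
theorem h57_restrict {H : Type} [Group H] [Finite H] (g : MulAut H) (K : Subgroup H)
    (hK : ∀ x ∈ K, g x ∈ K) : ∃ gK : MulAut K, (∀ x : K, ((gK x : K) : H) = g x) ∧
      (∀ n : ℕ, ∀ x : K, (((gK ^ n) x : K) : H) = (g ^ n) x) := by
  have hbij : Function.Bijective (fun x : K => (⟨g x, hK x x.2⟩ : K)) := by
    apply Finite.injective_iff_bijective.mp
    intro x y hxy
    have : g x = g y := congrArg Subtype.val hxy
    exact Subtype.ext (g.injective this)
  let gK : MulAut K := MulEquiv.ofBijective
    ({ toFun := fun x => (⟨g x, hK x x.2⟩ : K), map_one' := by simp, map_mul' := by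
        intro x y; simp } : K →* K) hbij
  have h1 : ∀ x : K, ((gK x : K) : H) = g x := fun x => rfl
  refine ⟨gK, h1, ?_⟩
  intro n
  induction n with
  | zero => intro x; simp
  | succ n ih =>
    intro x
    rw [pow_succ, pow_succ, MulAut.mul_apply, MulAut.mul_apply, ih, h1]

theorem h57_inv {p r d : ℕ} (hp : p.Prime) (hr : r.Prime) (hrp : r ≠ p)
    (hj : ∀ j : ℕ, 0 < j → j < d → (p : ZMod r) ^ j ≠ 1) (H : Type) [Group H]
    (hH : Nat.card H = p ^ d) (g : MulAut H) (hg : g ^ r = 1) (hg1 : g ≠ 1)
    (K : Subgroup H) (hK : ∀ x ∈ K, g x ∈ K) : K = ⊥ ∨ K = ⊤ := by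
  have : Finite H := Nat.finite_of_card_ne_zero (by rw [hH]; exact (pow_pos hp.pos _).ne')
  have hfix := h57_fix_trivial hp hr hrp hj H hH g hg hg1
  obtain ⟨gK, h1, h2⟩ := h57_restrict g K hK
  obtain ⟨m, hm, hcm⟩ := (Nat.dvd_prime_pow hp).mp (hH ▸ Subgroup.card_subgroup_dvd_card K)
  have hgK : gK ^ r = 1 := by
    refine MulEquiv.ext fun x => Subtype.ext ?_
    rw [h2, hg]; rfl
  obtain ⟨i, hi, hc, he⟩ := aut_fix hp hr K hcm gK hgK
  have hi0 : i = 0 := by
    have : Subsingleton {x : K // gK x = x} := by
      constructor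
      rintro ⟨x, hx⟩ ⟨y, hy⟩
      have hx1 : (x : H) = 1 := hfix x (by rw [← h1, hx])
      have hy1 : (y : H) = 1 := hfix y (by rw [← h1, hy])
      apply Subtype.ext; apply Subtype.ext
      show (x : H) = (y : H)
      rw [hx1, hy1]
    have hle : Nat.card {x : K // gK x = x} ≤ 1 := Finite.card_le_one_iff_subsingleton.mpr this
    rw [hc] at hle
    by_contra hne
    have := Nat.one_lt_pow hne hp.one_lt
    omega
  rw [hi0, pow_zero] at he
  rcases Nat.eq_zero_or_pos m with h0 | h0
  · left
    rw [h0, pow_zero] at hcm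
    exact Subgroup.eq_bot_of_card_eq K hcm
  · right
    rcases Nat.lt_or_ge m d with hmd | hmd
    · exact absurd he (hj m h0 hmd)
    · have : m = d := le_antisymm hm hmd
      rw [this, ← hH] at hcm
      exact Subgroup.eq_top_of_card_eq K hcm

theorem h57_comm {p r d : ℕ} (hp : p.Prime) (hr : r.Prime) (hrp : r ≠ p) (hd : 0 < d)
    (hj : ∀ j : ℕ, 0 < j → j < d → (p : ZMod r) ^ j ≠ 1) (H : Type) [Group H]
    (hH : Nat.card H = p ^ d) (g : MulAut H) (hg : g ^ r = 1) (hg1 : g ≠ 1) :
    (∀ x y : H, x * y = y * x) ∧ ∀ x : H, x ^ p = 1 := by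
  have : Finite H := Nat.finite_of_card_ne_zero (by rw [hH]; exact (pow_pos hp.pos _).ne')
  have : Fact p.Prime := ⟨hp⟩
  have : Nontrivial H := by
    rw [← Finite.one_lt_card_iff_nontrivial, hH]
    exact Nat.one_lt_pow hd.ne' hp.one_lt
  have hpg : IsPGroup p H := IsPGroup.of_card hH
  have hcomm : ∀ x y : H, x * y = y * x := by
    have hcen := h57_inv hp hr hrp hj H hH g hg hg1 (Subgroup.center H) (by
      intro x hx
      rw [Subgroup.mem_center_iff] at hx ⊢
      intro y
      have := hx (g.symm y)
      have h2 := congrArg g this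
      simpa using h2)
    rcases hcen with h | h
    · exfalso
      have := hpg.center_nontrivial
      rw [Subgroup.nontrivial_iff_ne_bot] at this
      exact this h
    · intro x y
      have : y ∈ Subgroup.center H := by rw [h]; trivial
      exact (Subgroup.mem_center_iff.mp this) x
  refine ⟨hcomm, ?_⟩
  let K : Subgroup H :=
    { carrier := {x | x ^ p = 1}
      mul_mem' := by
        intro a b ha hb
        show (a * b) ^ p = 1
        have ha' : a ^ p = 1 := ha
        have hb' : b ^ p = 1 := hb
        rw [(show Commute a b from hcomm a b).mul_pow, ha', hb', one_mul]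
      one_mem' := one_pow p
      inv_mem' := by
        intro a ha
        show (a⁻¹) ^ p = 1
        have ha' : a ^ p = 1 := ha
        rw [inv_pow, ha', inv_one] }
  have hK := h57_inv hp hr hrp hj H hH g hg hg1 K (by
    intro x hx
    show (g x) ^ p = 1
    rw [← map_pow]
    have hx' : x ^ p = 1 := hx
    rw [hx', map_one])
  rcases hK with h | h
  · exfalso
    have hdvd : p ∣ Nat.card H := by rw [hH]; exact dvd_pow_self p hd.ne'
    obtain ⟨x, hx⟩ := exists_prime_orderOf_dvd_card' p hdvd
    have hxK : x ∈ K := by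
      show x ^ p = 1
      rw [← hx]; exact pow_orderOf_eq_one x
    rw [h, Subgroup.mem_bot] at hxK
    rw [hxK, orderOf_one] at hx
    exact hp.one_lt.ne hx
  · intro x
    have : x ∈ K := by rw [h]; trivial
    exact this

open Polynomial in
/-- A simple module over the polynomial ring over `ZMod p` with `p ^ d` elements is the field. -/
theorem h57_simple {p d : ℕ} [Fact p.Prime] (V : Type) [AddCommGroup V] [Module (ZMod p) V]
    [Nontrivial V] (hV : Nat.card V = p ^ d) (G : Module.End (ZMod p) V)
    (hinv : ∀ K : AddSubgroup V, (∀ x ∈ K, G x ∈ K) → K = ⊥ ∨ K = ⊤) :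
    ∃ (e : V ≃+ GaloisField p d) (ζ : GaloisField p d), ∀ v, e (G v) = ζ * e v := by
  have hsimple : IsSimpleModule (ZMod p)[X] (Module.AEval' G) := by
    rw [isSimpleModule_iff]
    have : Nontrivial (Module.AEval' G) := (Module.AEval'.of G).symm.toEquiv.nontrivial
    refine { exists_pair_ne := ⟨⊥, ⊤, bot_ne_top⟩, eq_bot_or_eq_top := ?_ }
    intro N
    let K : AddSubgroup V :=
      { carrier := {v | Module.AEval'.of G v ∈ N}
        add_mem' := by
          intro a b ha hb
          show Module.AEval'.of G (a + b) ∈ N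
          rw [map_add]; exact N.add_mem ha hb
        zero_mem' := by
          show Module.AEval'.of G 0 ∈ N
          rw [map_zero]; exact N.zero_mem
        neg_mem' := by
          intro a ha
          show Module.AEval'.of G (-a) ∈ N
          rw [map_neg]; exact N.neg_mem ha }
    have hK := hinv K (by
      intro x hx
      show Module.AEval'.of G (G x) ∈ N
      rw [← Module.AEval'.X_smul_of]
      exact N.smul_mem _ hx)
    rcases hK with h | h
    · left
      rw [Submodule.eq_bot_iff]
      intro x hx
      have h1 : (Module.AEval'.of G).symm x ∈ K := by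
        show Module.AEval'.of G ((Module.AEval'.of G).symm x) ∈ N
        rw [LinearEquiv.apply_symm_apply]; exact hx
      rw [h, AddSubgroup.mem_bot] at h1
      have := congrArg (Module.AEval'.of G) h1
      rwa [LinearEquiv.apply_symm_apply, map_zero] at this
    · right
      rw [Submodule.eq_top_iff']
      intro x
      have h1 : (Module.AEval'.of G).symm x ∈ K := by rw [h]; trivial
      have h2 : Module.AEval'.of G ((Module.AEval'.of G).symm x) ∈ N := h1
      rwa [LinearEquiv.apply_symm_apply] at h2
  obtain ⟨I, hI, ⟨f⟩⟩ := isSimpleModule_iff_quot_maximal.mp hsimple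
  letI : Field ((ZMod p)[X] ⧸ I) := Ideal.Quotient.field I
  have hcard : Nat.card ((ZMod p)[X] ⧸ I) = p ^ d := by
    rw [← hV]
    exact (Nat.card_congr ((Module.AEval'.of G).toEquiv.trans f.toEquiv)).symm
  let k : ((ZMod p)[X] ⧸ I) ≃ₐ[ZMod p] GaloisField p d :=
    GaloisField.algEquivGaloisField _ _ hcard
  refine ⟨((Module.AEval'.of G).toAddEquiv.trans f.toAddEquiv).trans k.toRingEquiv.toAddEquiv,
    k (Ideal.Quotient.mk I X), ?_⟩
  intro v
  show k (f (Module.AEval'.of G (G v))) = _ * k (f (Module.AEval'.of G v))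
  rw [← Module.AEval'.X_smul_of, map_smul, ← map_mul]
  congr 1

/-- GN6a: an automorphism of prime order `r` of a group of order `p ^ d`, `d` = order of `p`
modulo `r`: the group is `GaloisField p d` and the automorphism multiplication by a
root of unity. -/
theorem sing {p r d : ℕ} [Fact p.Prime] (hr : r.Prime) (hrp : r ≠ p) (hd : 0 < d) (hd3 : d ≤ 3)
    (hpr : (p : ZMod r) ^ d = 1) (hj : ∀ j : ℕ, 0 < j → j < d → (p : ZMod r) ^ j ≠ 1)
    (H : Type) [Group H] (hH : Nat.card H = p ^ d) (g : MulAut H) (hg : g ^ r = 1) (hg1 : g ≠ 1) :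
    ∃ (e : H ≃* Multiplicative (GaloisField p d)) (ζ : (GaloisField p d)ˣ), orderOf ζ = r ∧
      ∀ x, Multiplicative.toAdd (e (g x)) = (ζ : GaloisField p d) * Multiplicative.toAdd (e x) := by
  have hp : p.Prime := Fact.out
  obtain ⟨hcomm, hexp⟩ := h57_comm hp hr hrp hd hj H hH g hg hg1
  have hne : Nontrivial H := by
    rcases subsingleton_or_nontrivial H with h | h
    · exfalso
      exact hg1 (MulEquiv.ext fun x => h.elim _ _)
    · exact h
  let cg : CommGroup H := { ‹Group H› with mul_comm := hcomm }
  let md : Module (ZMod p) (Additive H) :=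
    AddCommGroup.zmodModule (n := p) (fun x => congrArg Additive.ofMul (hexp x.toMul))
  let G : Module.End (ZMod p) (Additive H) :=
    (MonoidHom.toAdditive g.toMonoidHom).toZModLinearMap p
  have hG : ∀ x : H, G (Additive.ofMul x) = Additive.ofMul (g x) := fun x => rfl
  have hnt : Nontrivial (Additive H) := Additive.ofMul.symm.nontrivial
  obtain ⟨e, ζ, he⟩ := h57_simple (p := p) (d := d) (Additive H) hH G (by
    intro K hK
    let K' : Subgroup H :=
      { carrier := {x | Additive.ofMul x ∈ K}
        mul_mem' := by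
          intro a b ha hb
          show Additive.ofMul (a * b) ∈ K
          rw [ofMul_mul]; exact K.add_mem ha hb
        one_mem' := by
          show Additive.ofMul 1 ∈ K
          rw [ofMul_one]; exact K.zero_mem
        inv_mem' := by
          intro a ha
          show Additive.ofMul a⁻¹ ∈ K
          rw [ofMul_inv]; exact K.neg_mem ha }
    rcases h57_inv hp hr hrp hj H hH g hg hg1 K' (fun x hx => hK _ hx) with h | h
    · left
      rw [AddSubgroup.eq_bot_iff_forall]
      intro x hx
      have h1 : x.toMul ∈ K' := hx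
      rw [h, Subgroup.mem_bot] at h1
      exact congrArg Additive.ofMul h1
    · right
      rw [AddSubgroup.eq_top_iff']
      intro x
      have h1 : x.toMul ∈ K' := by rw [h]; trivial
      exact h1)
  have hpow : ∀ n : ℕ, ∀ x : H,
      e (Additive.ofMul ((g ^ n) x)) = ζ ^ n * e (Additive.ofMul x) := by
    intro n
    induction n with
    | zero => intro x; simp
    | succ n ih =>
      intro x
      rw [pow_succ', MulAut.mul_apply, ← hG, he, ih, pow_succ', mul_assoc]
  have hz : ζ ^ r = 1 := by
    have h1 := hpow r (e.symm 1).toMul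
    rw [hg] at h1
    have h2 : e (Additive.ofMul (Additive.toMul (e.symm 1))) = 1 := e.apply_symm_apply 1
    rw [h2, mul_one] at h1
    rw [← h1, MulAut.one_apply]
    exact h2
  have hz1 : ζ ≠ 1 := by
    intro h1
    apply hg1
    refine MulEquiv.ext fun x => ?_
    have h2 := he (Additive.ofMul x)
    rw [h1, one_mul] at h2
    have h3 := e.injective h2
    rw [hG] at h3
    exact Additive.ofMul.injective h3
  let ζu : (GaloisField p d)ˣ := Units.ofPowEqOne ζ r hz hr.ne_zero
  have hζu : (ζu : GaloisField p d) = ζ := rfl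
  have : Fact r.Prime := ⟨hr⟩
  have hord : orderOf ζu = r := by
    rw [← orderOf_units, hζu]
    exact orderOf_eq_prime hz hz1
  let e' : H ≃* Multiplicative (GaloisField p d) :=
    { toFun := fun x => Multiplicative.ofAdd (e (Additive.ofMul x))
      invFun := fun y => (e.symm y.toAdd).toMul
      left_inv := fun x => by simp
      right_inv := fun y => by simp
      map_mul' := fun x y => by simp }
  refine ⟨e', ζu, hord, ?_⟩
  intro x
  show e (Additive.ofMul (g x)) = (ζu : GaloisField p d) * e (Additive.ofMul x)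
  rw [hζu, ← he, hG]

end Pool.Agent.helper74.GN
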