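import Pool.Agent.helper57.GN.GN6b

/-!
GNU project, module GN7b: existence of the Heisenberg group with its automorphism of order `B`.
-/

set_option autoImplicit false

namespace Pool.Agent.helper74.GN

/-- The central extension of `K` by `Z` with a biadditive cocycle. -/
@[ext] structure Hs {K Z : Type} [AddCommGroup K] [AddCommGroup Z] (c : K →+ K →+ Z) : Type where
  /-- first coordinate -/
  a : K
  /-- central coordinate -/
  z : Z

section Hs

variable {K Z : Type} [AddCommGroup K] [AddCommGroup Z] (c : K →+ K →+ Z)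

instance : Mul (Hs c) := ⟨fun x y => ⟨x.a + y.a, x.z + y.z + c x.a y.a⟩⟩
instance : One (Hs c) := ⟨⟨0, 0⟩⟩
instance : Inv (Hs c) := ⟨fun x => ⟨-x.a, -x.z + c x.a x.a⟩⟩

@[simp] theorem Hs.mul_a (x y : Hs c) : (x * y).a = x.a + y.a := rfl
@[simp] theorem Hs.mul_z (x y : Hs c) : (x * y).z = x.z + y.z + c x.a y.a := rfl
@[simp] theorem Hs.one_a : (1 : Hs c).a = 0 := rfl
@[simp] theorem Hs.one_z : (1 : Hs c).z = 0 := rfl
@[simp] theorem Hs.inv_a (x : Hs c) : (x⁻¹).a = -x.a := rfl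
@[simp] theorem Hs.inv_z (x : Hs c) : (x⁻¹).z = -x.z + c x.a x.a := rfl

instance : Group (Hs c) :=
  Group.ofLeftAxioms
    (by
      intro x y z
      ext
      · simp [add_assoc]
      · simp; abel)
    (by
      intro x
      ext
      · simp
      · simp)
    (by
      intro x
      ext
      · simp
      · simp)

theorem Hs.card (N M : ℕ) (hK : Nat.card K = N) (hZ : Nat.card Z = M) :
    Nat.card (Hs c) = N * M := by
  rw [← hK, ← hZ, ← Nat.card_prod]
  exact Nat.card_congr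
    { toFun := fun x => (x.a, x.z), invFun := fun x => ⟨x.1, x.2⟩,
      left_inv := fun x => rfl, right_inv := fun x => rfl }

/-- Homomorphisms from compatible pairs of equivalences. -/
def Hs.congr (f : K ≃+ K) (h : Z ≃+ Z) (hf : ∀ x y, c (f x) (f y) = h (c x y)) :
    Hs c ≃* Hs c where
  toFun x := ⟨f x.a, h x.z⟩
  invFun x := ⟨f.symm x.a, h.symm x.z⟩
  left_inv x := by ext <;> simp
  right_inv x := by ext <;> simp
  map_mul' x y := by ext <;> simp [hf]

@[simp] theorem Hs.congr_a (f : K ≃+ K) (h : Z ≃+ Z) (hf : ∀ x y, c (f x) (f y) = h (c x y))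
    (x : Hs c) : (Hs.congr c f h hf x).a = f x.a := rfl
@[simp] theorem Hs.congr_z (f : K ≃+ K) (h : Z ≃+ Z) (hf : ∀ x y, c (f x) (f y) = h (c x y))
    (x : Hs c) : (Hs.congr c f h hf x).z = h x.z := rfl

/-- If the commutator form is nondegenerate the centre is the second coordinate. -/
theorem Hs.center_iff (hnd : ∀ x : K, (∀ y, c x y = c y x) → x = 0) (x : Hs c) :
    (∀ y, x * y = y * x) ↔ x.a = 0 := by
  constructor
  · intro h
    apply hnd
    intro y
    have := congrArg Hs.z (h ⟨y, 0⟩)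
    simp only [Hs.mul_z] at this
    rw [add_comm x.z 0] at this
    exact add_left_cancel this
  · intro h y
    ext
    · simp [h]
    · simp [h, add_comm]

/-- An automorphism of the extension induces an automorphism of `K`. -/
theorem Hs.induced [Finite K] (hnd : ∀ x : K, (∀ y, c x y = c y x) → x = 0) (e : Hs c ≃* Hs c) :
    ∃ f : K ≃+ K, ∀ x : Hs c, (e x).a = f x.a := by
  have hcen : ∀ x : Hs c, x.a = 0 → (e x).a = 0 := by
    intro x hx
    rw [← Hs.center_iff c hnd] at hx ⊢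
    intro y
    have := congrArg e (hx (e.symm y))
    simpa using this
  have hcen' : ∀ x : Hs c, (e x).a = 0 → x.a = 0 := by
    intro x hx
    rw [← Hs.center_iff c hnd] at hx ⊢
    intro y
    have := hx (e y)
    rw [← map_mul, ← map_mul] at this
    exact e.injective this
  have hdec : ∀ x : Hs c, (e x).a = (e ⟨x.a, 0⟩).a := by
    intro x
    have h1 : x = (⟨x.a, 0⟩ : Hs c) * ⟨0, x.z⟩ := by ext <;> simp
    conv_lhs => rw [h1]
    rw [map_mul, Hs.mul_a, hcen ⟨0, x.z⟩ rfl, add_zero]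
  let f : K →+ K := AddMonoidHom.mk' (fun x => (e ⟨x, 0⟩).a) (by
    intro x y
    show (e ⟨x + y, 0⟩).a = (e ⟨x, 0⟩).a + (e ⟨y, 0⟩).a
    rw [← Hs.mul_a, ← map_mul, hdec ((⟨x, 0⟩ : Hs c) * ⟨y, 0⟩)]
    rfl)
  have hfi : Function.Injective f := by
    rw [injective_iff_map_eq_zero]
    intro x hx
    exact hcen' ⟨x, 0⟩ hx
  have hfb : Function.Bijective f := Finite.injective_iff_bijective.mp hfi
  exact ⟨AddEquiv.ofBijective f hfb, fun x => hdec x⟩

end Hs

/-- The data over the field with `w ^ 2` elements. -/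
theorem h57_data {B w : ℕ} [Fact w.Prime] (hB : B.Prime) (h3 : 3 < B)
    (hwB : (w : ZMod B) = -1) : ∃ (σ : GaloisField w 2 ≃ₐ[ZMod w] GaloisField w 2)
      (δ : GaloisField w 2) (ζ : (GaloisField w 2)ˣ), (∀ x, σ (σ x) = x) ∧ (∀ x, σ x = x ^ w) ∧
      δ ≠ 0 ∧ σ δ = -δ ∧ orderOf ζ = B ∧ σ (ζ : GaloisField w 2) * ζ = 1 ∧ w ≠ 2 := by
  have hw : w.Prime := Fact.out
  have hBp : Fact B.Prime := ⟨hB⟩
  let σ := FiniteField.frobeniusAlgEquivOfAlgebraic (ZMod w) (GaloisField w 2)
  have hσ : ∀ x, σ x = x ^ w := by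
    intro x
    show x ^ (Fintype.card (ZMod w)) = x ^ w
    rw [ZMod.card]
  have hord : orderOf σ = 2 := by
    rw [FiniteField.orderOf_frobeniusAlgEquivOfAlgebraic, GaloisField.finrank w two_ne_zero]
  have hσ2 : ∀ x, σ (σ x) = x := by
    intro x
    have h := pow_orderOf_eq_one σ
    rw [hord, pow_two] at h
    exact DFunLike.congr_fun h x
  have hσ1 : σ ≠ 1 := by
    intro h
    rw [h, orderOf_one] at hord
    omega
  obtain ⟨x, hx⟩ : ∃ x, σ x ≠ x := by
    by_contra hcon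
    push Not at hcon
    exact hσ1 (AlgEquiv.ext hcon)
  have hdvd1 : B ∣ w + 1 := by
    rw [← ZMod.natCast_eq_zero_iff]
    push_cast
    rw [hwB]; ring
  have hw2 : w ≠ 2 := by
    rintro rfl
    have := Nat.le_of_dvd (by norm_num) hdvd1
    omega
  have hdvd : B ∣ Nat.card (GaloisField w 2)ˣ := by
    rw [Nat.card_units, GaloisField.card w 2 two_ne_zero]
    have h1 : w ^ 2 - 1 = (w + 1) * (w - 1) := by
      rw [← Nat.sq_sub_sq, one_pow]
    rw [h1]
    exact Dvd.dvd.mul_right hdvd1 _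
  obtain ⟨ζ, hζ⟩ := exists_prime_orderOf_dvd_card' B hdvd
  refine ⟨σ, x - σ x, ζ, hσ2, hσ, ?_, ?_, hζ, ?_, hw2⟩
  · intro h
    exact hx (sub_eq_zero.mp h).symm
  · rw [map_sub, hσ2, neg_sub]
  · rw [hσ]
    have h1 : ζ ^ (w + 1) = 1 := by
      rw [← orderOf_dvd_iff_pow_eq_one, hζ]; exact hdvd1
    have h2 := congrArg Units.val h1
    rw [Units.val_pow_eq_pow_val, Units.val_one, pow_succ] at h2
    exact h2

/-- GN7b: existence of the Heisenberg group with its automorphism of order `B`. -/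
theorem heis_exists {B w : ℕ} (hB : B.Prime) (hw : w.Prime) (h3 : 3 < B)
    (hwB : (w : ZMod B) = -1) : ∃ (A : Type) (_ : Group A) (β : MulAut A),
    Nat.card A = w ^ 3 ∧ (∃ x y : A, x * y ≠ y * x) ∧ β ^ B = 1 ∧ β ≠ 1 ∧
    (∃ e : A ≃* A, ∀ x, e (β⁻¹ x) = β (e x)) ∧
    ∀ u : (ZMod B)ˣ, (∃ (e : A ≃* A) (a : A), ∀ x,
      e ((β ^ (u : ZMod B).val) x) = a * β (e x) * a⁻¹) → u = 1 ∨ u = -1 := by
  have hwf : Fact w.Prime := ⟨hw⟩
  have hBp : Fact B.Prime := ⟨hB⟩
  obtain ⟨σ, δ, ζ, hσ2, hσw, hδ, hσδ, hζ, hσζ, hw2⟩ := h57_data (B := B) (w := w) hB h3 hwB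
  let tr : GaloisField w 2 →+ ZMod w := (Algebra.trace (ZMod w) (GaloisField w 2)).toAddMonoidHom
  have htr : ∀ x, tr (σ x) = tr x := fun x => Algebra.trace_eq_of_algEquiv σ x
  let c : GaloisField w 2 →+ GaloisField w 2 →+ ZMod w :=
    AddMonoidHom.mk' (fun x => AddMonoidHom.mk' (fun y => tr (δ * x * σ y)) (by
      intro y y'; rw [map_add, mul_add, map_add])) (by
      intro x x'
      ext y
      show tr (δ * (x + x') * σ y) = tr (δ * x * σ y) + tr (δ * x' * σ y)
      rw [mul_add, add_mul, map_add])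
  have hc : ∀ x y, c x y = tr (δ * x * σ y) := fun x y => rfl
  have hanti : ∀ x y, c y x = - c x y := by
    intro x y
    rw [hc, hc, ← htr (δ * y * σ x), ← map_neg]
    congr 1
    rw [map_mul, map_mul, hσδ, hσ2]
    ring
  have h2 : (2 : ZMod w) ≠ 0 := by
    intro h
    have h' : ((2 : ℕ) : ZMod w) = 0 := by exact_mod_cast h
    rw [ZMod.natCast_eq_zero_iff] at h'
    exact hw2 ((Nat.prime_dvd_prime_iff_eq hw Nat.prime_two).mp h')
  have hsym0 : ∀ x y, c x y = c y x → c x y = 0 := by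
    intro x y h
    rw [hanti x y] at h
    have h4 : (2 : ZMod w) * c x y = 0 := by
      rw [two_mul]
      nth_rewrite 1 [h]
      ring
    exact (mul_eq_zero.mp h4).resolve_left h2
  obtain ⟨t, ht⟩ : ∃ t, tr t ≠ 0 := by
    by_contra hcon
    push Not at hcon
    exact Algebra.trace_ne_zero (ZMod w) (GaloisField w 2) (LinearMap.ext hcon)
  have hnd : ∀ x : GaloisField w 2, (∀ y, c x y = c y x) → x = 0 := by
    intro x h
    by_contra hx
    have h1 := hsym0 x (σ ((δ * x)⁻¹ * t)) (h _)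
    rw [hc, hσ2, mul_inv_cancel_left₀ (mul_ne_zero hδ hx)] at h1
    exact ht h1
  have hζσ : ∀ x y, c ((ζ : GaloisField w 2) * x) ((ζ : GaloisField w 2) * y) = c x y := by
    intro x y
    rw [hc, hc, map_mul σ]
    congr 1
    calc δ * ((ζ : GaloisField w 2) * x) * (σ ζ * σ y) = (σ ζ * ζ) * (δ * x * σ y) := by ring
      _ = δ * x * σ y := by rw [hσζ, one_mul]
  let mζ : GaloisField w 2 ≃+ GaloisField w 2 := DistribMulAction.toAddEquiv _ ζ
  have hmζ : ∀ x, mζ x = (ζ : GaloisField w 2) * x := fun x => rfl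
  let β : MulAut (Hs c) := Hs.congr c mζ (AddEquiv.refl _) (fun x y => hζσ x y)
  have hβpow : ∀ (n : ℕ) (x : Hs c), (β ^ n) x = ⟨(ζ : GaloisField w 2) ^ n * x.a, x.z⟩ := by
    intro n
    induction n with
    | zero => intro x; ext <;> simp
    | succ n ih =>
      intro x
      rw [pow_succ', MulAut.mul_apply, ih]
      ext
      · show (ζ : GaloisField w 2) * (ζ ^ n * x.a) = _
        rw [pow_succ']; ring
      · rfl
  have hζ1 : (ζ : GaloisField w 2) ^ B = 1 := by
    rw [← Units.val_pow_eq_pow_val, ← hζ, pow_orderOf_eq_one, Units.val_one]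
  have hζne : (ζ : GaloisField w 2) ≠ 1 := by
    intro h
    have : ζ = 1 := Units.ext h
    rw [this, orderOf_one] at hζ
    omega
  have hβB : β ^ B = 1 := by
    refine MulEquiv.ext fun x => ?_
    rw [hβpow, hζ1]
    ext
    · simp
    · simp
  refine ⟨Hs c, inferInstance, β, ?_, ?_, hβB, ?_, ?_, ?_⟩
  · rw [Hs.card c (w ^ 2) w (GaloisField.card w 2 two_ne_zero) (Nat.card_zmod w)]
    ring
  · by_contra hcon
    push Not at hcon
    have := (Hs.center_iff c hnd ⟨1, 0⟩).mp (fun y => hcon _ y)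
    exact one_ne_zero this
  · intro h
    have h1 := congrArg Hs.a (DFunLike.congr_fun h (⟨1, 0⟩ : Hs c))
    have h4 : (ζ : GaloisField w 2) * 1 = 1 := h1
    rw [mul_one] at h4
    exact hζne h4
  · let e : Hs c ≃* Hs c := Hs.congr c σ.toRingEquiv.toAddEquiv (AddEquiv.neg _) (by
      intro x y
      show c (σ x) (σ y) = - c x y
      rw [← hanti, hc, hc, hσ2]
      congr 1
      ring)
    refine ⟨e, ?_⟩
    intro x
    have hinv : β⁻¹ x = ⟨(ζ : GaloisField w 2)⁻¹ * x.a, x.z⟩ := by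
      apply β.injective
      rw [MulAut.apply_inv_self]
      ext
      · show x.a = (ζ : GaloisField w 2) * ((ζ : GaloisField w 2)⁻¹ * x.a)
        rw [mul_inv_cancel_left₀ ζ.ne_zero]
      · rfl
    rw [hinv]
    ext
    · show σ ((ζ : GaloisField w 2)⁻¹ * x.a) = ζ * σ x.a
      rw [map_mul σ, map_inv₀ σ, inv_eq_of_mul_eq_one_right hσζ]
    · rfl
  · rintro u ⟨e, a, he⟩
    obtain ⟨f, hf⟩ := Hs.induced c hnd e
    have hf2 : ∀ x, f ((ζ : GaloisField w 2) ^ (u : ZMod B).val * x) = ζ * f x := by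
      intro x
      have h1 := congrArg Hs.a (he ⟨x, 0⟩)
      rw [hf, hβpow] at h1
      simp only [Hs.mul_a, Hs.inv_a] at h1
      have h4 : (β (e ⟨x, 0⟩)).a = ζ * f x := by
        show (ζ : GaloisField w 2) * (e ⟨x, 0⟩).a = ζ * f x
        rw [hf]
      rw [h4] at h1
      rw [h1]; ring
    obtain ⟨j, hj⟩ := sing_inj (by norm_num : 0 < 2) _ _ f hf2
    rw [← pow_mul] at hj
    have h5 : ζ ^ ((u : ZMod B).val * w ^ j) = ζ ^ 1 := by
      apply Units.ext
      rw [Units.val_pow_eq_pow_val, Units.val_pow_eq_pow_val, pow_one]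
      exact hj.symm
    rw [pow_eq_pow_iff_modEq, hζ, ← ZMod.natCast_eq_natCast_iff] at h5
    push_cast at h5
    rw [ZMod.natCast_val, ZMod.cast_id', id, hwB] at h5
    rcases neg_one_pow_eq_or (ZMod B) j with h6 | h6
    · left
      rw [h6, mul_one] at h5
      exact Units.ext h5
    · right
      rw [h6, mul_neg, mul_one] at h5
      apply Units.ext
      rw [Units.val_neg, Units.val_one, ← h5, neg_neg]

end Pool.Agent.helper74.GN
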